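import Mathlib

namespace Pool.Agent.H.MP_094aee_lc

open Function Set Sum Filter Topology MeasureTheory Relation

abbrev Y : Type := ℕ → Bool

instance : PolishSpace Y := ⟨⟩

lemma ulim {α : Type} (f : ℕ → α) {S : Set α} (hS : S.Finite)
    (h : ∀ᶠ k in hyperfilter ℕ, f k ∈ S) : ∃ a, ∀ᶠ k in hyperfilter ℕ, f k = a := by
  obtain ⟨a, -, e⟩ := Ultrafilter.eq_pure_of_finite_mem (f := (hyperfilter ℕ).map f) hS h
  exact ⟨a, show {a} ∈ (hyperfilter ℕ).map f by rw [e]; rfl⟩

lemma mev {Y κ : Type} [MeasurableSpace Y] [Countable κ] {b : Y → κ → Prop}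
    (hb : ∀ w, Measurable (b · w)) {c : Y → κ} (hc : ∀ w, Measurable (c · = w)) :
    Measurable fun y => b y (c y) := by
  rw [show (fun y => b y (c y)) = fun y => ∃ w, c y = w ∧ b y w by simp]
  exact .exists fun w => (hc w).and (hb w)

variable (h : (ℕ → ℕ) → Y × Y)

def St (n : ℕ) (s : ℕ → ℤ) (u v : Y) : Prop :=
  ∃ w, ∀ j < n, (w j : ℤ) ≤ s j ∧ (h w).1 j = u j ∧ (h w).2 j = v j

def Ch (n : ℕ) (s : ℕ → ℤ) (u : Y) : ℕ → Y → Prop
  | 0, v => ∀ j < n, u j = v j
  | m + 1, v => ∃ v', Ch n s u m v' ∧ St h n s v' v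

variable {h}

lemma Ch.mono {n n' s s' u u' m v v'} (c : Ch h n' s' u' m v') (hn : n ≤ n')
    (H : ∀ j < n, s' j ≤ s j ∧ u' j = u j ∧ v' j = v j) : Ch h n s u m v := by
  induction m generalizing v v' with
  | zero => exact fun j hj => (H j hj).2.1.symm.trans ((c j (hj.trans_le hn)).trans (H j hj).2.2)
  | succ m ih =>
    obtain ⟨a, b, w, c⟩ := c
    exact ⟨a, ih b fun j hj => ⟨(H j hj).1, (H j hj).2.1, rfl⟩, w, fun j hj =>
      (c j (hj.trans_le hn)).imp (·.trans (H j hj).1) (.imp_right (·.trans (H j hj).2.2))⟩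

lemma cpt (hh : Continuous h) (z : ℕ → ℤ) (u : Y) (m : ℕ) (v : Y) (H : ∀ n, Ch h n z u m v) :
    ReflTransGen (fun a b => (a, b) ∈ range h) u v := by
  induction m generalizing v with
  | zero => exact (funext fun j => H (j + 1) j j.lt_succ_self : u = v) ▸ .refl
  | succ m ih =>
    choose a b w c using H
    have g : ∀ j, ∀ᶠ k in (hyperfilter ℕ : Filter ℕ), j < k := fun j =>
      Nat.hyperfilter_le_atTop (eventually_gt_atTop j)
    choose A hA using fun j => ulim (a · j) (toFinite univ) (.of_forall fun _ => trivial)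
    choose W hW using fun j => ulim (w · j) (finite_Iic (z j).toNat)
      ((g j).mono fun k hk => by have := (c k j hk).1; simp only [mem_Iic]; omega)
    refine (ih A fun n => ?_).tail ⟨W, ?_⟩
    · obtain ⟨k, k1, k2⟩ := ((g n).and ((eventually_all_finite (finite_Iio n)).2
        fun j _ => hA j)).exists
      exact (b k).mono k1.le fun j hj => ⟨le_rfl, rfl, k2 j hj⟩
    · have : Tendsto w (hyperfilter ℕ) (𝓝 W) := tendsto_pi_nhds.2 fun j =>
        tendsto_const_nhds.congr' ((hW j).mono fun _ => .symm)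
      exact tendsto_nhds_unique ((hh.tendsto _).comp this) (Tendsto.prodMk_nhds
        (tendsto_pi_nhds.2 fun j => tendsto_const_nhds.congr' (((g j).and (hA j)).mono
          fun k hk => ((c k j hk.1).2.1.trans hk.2).symm))
        (tendsto_pi_nhds.2 fun j => tendsto_const_nhds.congr' ((g j).mono
          fun k hk => (c k j hk).2.2.symm)))

abbrev Node : Type := ℕ × ℤ × (ℕ →₀ ℤ)

abbrev I : Type := ℤ ⊕ ℕ × ℤ ⊕ List Bool

def Cd (p q : Node) : Prop := p.1 = q.1 + 1 ∧ q.2.1 = p.2.1 ∧ q.2.2 = p.2.2.erase q.1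

def bit (h : (ℕ → ℕ) → Y × Y) (y : Y) (p : Node) : I → Prop
  | inl k => k < p.2.1
  | inr (inl x) => x.2 < p.2.2 x.1
  | inr (inr l) => (0 ≤ p.2.1 ∧ ∀ j, 0 ≤ p.2.2 j) ∧ Ch h p.1 p.2.2 (fun j => l.getD j false) p.2.1.toNat y

lemma apx (x : Y) (n : ℕ) : ∃ l : List Bool, ∀ j < n, l.getD j false = x j :=
  ⟨(List.range n).map x, fun j hj => by simp [hj]⟩

structure Sys (X : Type) [MeasurableSpace X] (R : X → X → Prop) where
  b : X → Node → I → Prop
  meas : ∀ p i, Measurable (b · p i)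
  up : ∀ x y, R x y → ∃ ψ : Node ≃ Node, (∀ p, (ψ p).1 = p.1) ∧
    (∀ p q, Cd (ψ p) (ψ q) ↔ Cd p q) ∧ ∀ p i, b x p i → b y (ψ p) i
  down : ∀ x y (ψ : Node → Node), (∀ p, (ψ p).1 = p.1) → (∀ p q, Cd p q → Cd (ψ p) (ψ q)) →
    (∀ p i, b x p i → b y (ψ p) i) → R x y
  rig : ∀ x y p q, p.1 = q.1 → (∀ i, b x p i ↔ b y q i) → p = q
  inj : ∀ x y, (∀ p i, b x p i ↔ b y p i) → x = y

lemma sys (X : Type) [TopologicalSpace X] [PolishSpace X] [MeasurableSpace X] [BorelSpace X]
    (R : X → X → Prop) (r : ∀ x, R x x) (t : ∀ x y z, R x y → R y z → R x z)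
    (a : AnalyticSet {p : X × X | R p.1 p.2}) : Nonempty (Sys X R) := by
  rcases isEmpty_or_nonempty X with e | ⟨⟨x0⟩⟩
  · exact ⟨⟨e.elim, fun _ _ => measurable_of_empty _, e.elim, e.elim, e.elim, e.elim⟩⟩
  obtain ⟨ι, i1, i2⟩ := MeasurableSpace.measurable_injection_nat_bool_of_countablySeparated X
  obtain ⟨h, hh, e⟩ : ∃ h : (ℕ → ℕ) → Y × Y, Continuous h ∧
      range h = Prod.map ι ι '' {p : X × X | R p.1 p.2} := by
    rw [AnalyticSet] at a
    obtain ⟨g, g1, g2⟩ := a.resolve_left fun e => (e ▸ r x0 : (x0, x0) ∈ (∅ : Set _))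
    have := MeasurableSet.univ.analyticSet_image ((i1.prodMap i1).comp g1.measurable)
    rw [image_univ, range_comp, g2, AnalyticSet] at this
    exact this.resolve_left (Nonempty.image _ ⟨(x0, x0), r x0⟩).ne_empty
  refine ⟨⟨fun x => bit h (ι x), fun p i => ?_, fun x y hxy => ?_, fun x y ψ h1 h2 h3 => ?_,
    fun x y p q h1 h2 => ?_, fun x y H => i2 (funext fun j => ?_)⟩⟩
  · rcases i with k | k | l
    exacts [measurable_const, measurable_const, measurable_const.and (Eq.subst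
      (motive := fun f : X → Prop => Measurable f) (funext fun x => propext
        ⟨fun ⟨v, a, b⟩ => a.mono le_rfl fun j hj => ⟨le_rfl, rfl, b ⟨j, hj⟩⟩,
          fun a => ⟨_, a, fun _ => rfl⟩⟩)
      (mev (b := fun _ (w : Fin p.1 → Bool) => ∃ v, Ch h p.1 p.2.2 (fun j => l.getD j false)
        p.2.1.toNat v ∧ ∀ j : Fin p.1, v j = w j) (c := fun x j => ι x j)
        (fun _ => measurable_const) fun w => measurableSet_setOf.1
          (measurableSet_eq_fun (by fun_prop) measurable_const)))]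
  · obtain ⟨z, hz⟩ : (ι x, ι y) ∈ range h := e ▸ ⟨(x, y), hxy, rfl⟩
    let Z : ℕ → ℕ →₀ ℤ := fun n => .onFinset (.range n) (fun j => if j < n then z j else 0)
      (by simp +contextual)
    refine ⟨.prodCongrRight fun n => .prodCongr (.addRight 1) (.addRight (Z n)), fun _ => rfl,
      fun ⟨n, m, s⟩ ⟨n', m', s'⟩ => and_congr_right fun hn => and_congr (add_left_inj _) ?_,
      fun ⟨n, m, s⟩ i => ?_⟩
    · obtain rfl : n = n' + 1 := hn
      have : (Z (n' + 1)).erase n' = Z n' := Finsupp.ext fun j => by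
        by_cases c : j = n' <;> simp [Z, c]
        grind
      simp [this]
    have zz : ∀ j, s j ≤ s j + Z n j := fun j => by simp only [Z, Finsupp.onFinset_apply]; grind
    rcases i with k | k | l
    · exact fun a => Int.lt_add_one_iff.2 a.le
    · exact fun a => a.trans_le (zz _)
    rintro ⟨a, b⟩
    refine ⟨⟨Int.le_add_one a.1, fun j => (a.2 j).trans (zz j)⟩, ?_⟩
    show Ch h n (s + Z n) _ (m + 1).toNat _
    rw [Int.toNat_add a.1 zero_le_one]
    exact ⟨ι x, b.mono le_rfl fun j _ => ⟨zz j, rfl, rfl⟩, z, fun j hj =>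
      ⟨by simpa [Z, hj] using a.2 j, by rw [hz], by rw [hz]⟩⟩
  · have k : ∀ n, Cd (ψ (n + 1, 0, 0)) (ψ (n, 0, 0)) := fun n => h2 _ _ (by simp [Cd])
    have k1 : ∀ n, (ψ (n, 0, 0)).2.1 = (ψ (0, 0, 0)).2.1 := fun n => by
      induction n with
      | zero => rfl
      | succ n ih => exact (k n).2.1.symm.trans ih
    have k2 : ∀ n j, j < n → (ψ (n, 0, 0)).2.2 j = (ψ (j + 1, 0, 0)).2.2 j := fun n j hj => by
      induction n, hj using Nat.le_induction with
      | base => rfl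
      | succ n hn ih => rw [← ih, (k n).2.2, h1, Finsupp.erase_ne (by omega)]
    have := cpt hh (fun j => (ψ (j + 1, 0, 0)).2.2 j) (ι x) (ψ (0, 0, 0)).2.1.toNat (ι y)
      fun n => by
        obtain ⟨l, hl⟩ := apx (ι x) n
        have := (h3 (n, 0, 0) (inr (inr l)) ⟨⟨le_rfl, fun _ => le_rfl⟩, hl⟩).2
        rw [h1, k1] at this
        exact this.mono le_rfl fun j hj => ⟨(k2 n j hj).le, hl j hj, rfl⟩
    have q : ∀ v, ReflTransGen (fun a b => (a, b) ∈ range h) (ι x) v → ∀ y, ι y = v → R x y :=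
      fun v hv => by
        induction hv with
        | refl => exact fun y hy => i2 hy ▸ r _
        | tail _ b ih =>
          obtain ⟨p, b1, b2⟩ := e ▸ b
          exact fun y hy => t _ _ _ (ih _ (congrArg Prod.fst b2))
            (i2 ((congrArg Prod.snd b2).trans hy.symm) ▸ b1)
    exact q _ this y rfl
  · exact Prod.ext h1 (Prod.ext (eq_of_forall_lt_iff fun k => h2 (inl k))
      (Finsupp.ext fun j => eq_of_forall_lt_iff fun k => h2 (inr (inl (j, k)))))
  · obtain ⟨l, hl⟩ := apx (ι x) (j + 1)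
    exact (hl j j.lt_succ_self).symm.trans
      (((H (j + 1, 0, 0) (inr (inr l))).1 ⟨⟨le_rfl, fun _ => le_rfl⟩, hl⟩).2 j j.lt_succ_self)

end Pool.Agent.H.MP_094aee_lc
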