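import Pool.Agent.H.MP_44948e_lc.A

namespace Pool.Agent.H.MP_094aee_lc

open Function Set Sum MeasureTheory FirstOrder FirstOrder.Language

abbrev LL : Language := ⟨fun _ => PEmpty.{1}, fun n => {i : ℕ // (fun _ => 2 : ℕ → ℕ) i = n}⟩

abbrev M : Type := ℕ → (Fin 2 → ℕ) → Bool

@[reducible] def str (u : M) : LL.Structure ℕ :=
  ⟨fun f _ => PEmpty.elim f, fun r xs => u r.1 (xs ∘ Fin.cast r.2) = true⟩

def Xt (u : M) : Prop := ∀ (n : ℕ) (A : Finset ℕ) (o i : ℕ → ℕ → Bool) (d : ℕ → Bool), ∃ c ∉ A,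
  ∀ j < n, u j ![c, c] = d j ∧ ∀ a ∈ A, u j ![c, a] = o a j ∧ u j ![a, c] = i a j

def Sim {α : Type} (n : ℕ) (u u' : M) (v w : α → ℕ) : Prop :=
  ∀ a b, (v a = v b ↔ w a = w b) ∧ ∀ j < n, u j ![v a, v b] = u' j ![w a, w b]

lemma Sim.symm {α : Type} {n u u'} {v w : α → ℕ} (h : Sim n u u' v w) : Sim n u' u w v :=
  fun a b => ⟨(h a b).1.symm, fun j hj => ((h a b).2 j hj).symm⟩

lemma Sim.ext {α : Type} [Finite α] {n u u'} {v w : α → ℕ} (h : Sim n u u' v w) (hu : Xt u)
    (d : ℕ) : ∃ c, Sim n u u' (fun o : Option α => o.elim c v) fun o => o.elim d w := by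
  classical
  by_cases e : ∃ a, w a = d
  · obtain ⟨a, rfl⟩ := e
    exact ⟨v a, fun x y => by cases x <;> cases y <;> exact h _ _⟩
  cases nonempty_fintype α
  let t : ℕ → ℕ := fun x => if hx : ∃ a, v a = x then w hx.choose else 0
  have ht : ∀ a, t (v a) = w a := fun a => by
    have : ∃ b, v b = v a := ⟨a, rfl⟩
    simp only [t, dif_pos this]
    exact (h _ _).1.1 this.choose_spec
  obtain ⟨c, c1, c2⟩ := hu n (Finset.univ.image v) (fun x j => u' j ![d, t x])
    (fun x j => u' j ![t x, d]) fun j => u' j ![d, d]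
  simp only [Finset.mem_image, Finset.mem_univ, true_and, not_exists, forall_exists_index,
    forall_apply_eq_imp_iff, ht] at c1 c2 e
  refine ⟨c, ?_⟩
  rintro (_ | a) (_ | b)
  exacts [⟨by simp, fun j hj => (c2 j hj).1⟩,
    ⟨iff_of_false (c1 b ∘ .symm) (e b ∘ .symm), fun j hj => ((c2 j hj).2 b).1⟩,
    ⟨iff_of_false (c1 a) (e a), fun j hj => ((c2 j hj).2 a).2⟩, h a b]

lemma tv {α : Type} (t : LL.Term α) : ∃ a, t = Term.var a := by
  cases t with
  | var a => exact ⟨a, rfl⟩
  | func e _ => exact PEmpty.elim e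

lemma qe {α : Type} [Finite α] {l : ℕ} (φ : LL.BoundedFormula α l) : ∃ n, ∀ u u' v w xs ys,
    Xt u → Xt u' → Sim n u u' (Sum.elim v xs) (Sum.elim w ys) →
      (@BoundedFormula.Realize LL ℕ (str u) α l φ v xs ↔
        @BoundedFormula.Realize LL ℕ (str u') α l φ w ys) := by
  induction φ with
  | falsum => exact ⟨0, fun _ _ _ _ _ _ _ _ _ => Iff.rfl⟩
  | equal s t =>
    obtain ⟨a, rfl⟩ := tv s
    obtain ⟨b, rfl⟩ := tv t
    exact ⟨0, fun _ _ _ _ _ _ _ _ h => (h a b).1⟩
  | rel r ts =>
    choose a ha using fun i => tv (ts i)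
    obtain rfl : ts = fun i => Term.var (a i) := funext ha
    obtain ⟨j, rfl⟩ := r
    refine ⟨j + 1, fun u u' v w xs ys _ _ h => Eq.congr ?_ rfl⟩
    have e : ∀ f : Fin 2 → ℕ, f = ![f 0, f 1] := fun f => funext (by simp)
    exact (congrArg (u j) (e _)).trans (((h (a 0) (a 1)).2 j j.lt_succ_self).trans
      (congrArg (u' j) (e fun i => Sum.elim w ys (a i))).symm)
  | imp _ _ i1 i2 =>
    obtain ⟨n, a⟩ := i1
    obtain ⟨m, b⟩ := i2
    exact ⟨n + m, fun u u' v w xs ys h h' s => imp_congr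
      (a _ _ _ _ _ _ h h' fun x y => ⟨(s x y).1, fun j hj => (s x y).2 j (by omega)⟩)
      (b _ _ _ _ _ _ h h' fun x y => ⟨(s x y).1, fun j hj => (s x y).2 j (by omega)⟩)⟩
  | @all l φ ih =>
    obtain ⟨n, a⟩ := ih
    have : ∀ u u' v w xs ys, Xt u → Xt u' → Sim n u u' (Sum.elim v xs) (Sum.elim w ys) →
        @BoundedFormula.Realize LL ℕ (str u) α l φ.all v xs →
        @BoundedFormula.Realize LL ℕ (str u') α l φ.all w ys := fun u u' v w xs ys h h' s H d => by
      obtain ⟨c, hc⟩ := s.ext h d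
      let e : α ⊕ Fin (l + 1) → Option (α ⊕ Fin l) :=
        Sum.elim (some ∘ inl) (Fin.lastCases none (some ∘ inr))
      have k : ∀ (v : α → ℕ) (xs : Fin l → ℕ) c x, Sum.elim v (Fin.snoc xs c) x =
          (e x).elim c (Sum.elim v xs) := by
        rintro v xs c (x | x)
        · rfl
        · induction x using Fin.lastCases <;> simp [e]
      exact (a _ _ _ _ _ _ h h' fun x y => by simpa only [k] using hc (e x) (e y)).1 (H c)
    exact ⟨n, fun u u' v w xs ys h h' s => ⟨this _ _ _ _ _ _ h h' s, this _ _ _ _ _ _ h' h s.symm⟩⟩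

def Emb (u u' : M) : Prop := ∃ e : ℕ → ℕ, Injective e ∧ ∀ j a b, u' j ![e a, e b] = u j ![a, b]

lemma elem {u u' : M} (h : Xt u) (h' : Xt u') :
    Nonempty (@ElementaryEmbedding LL ℕ ℕ (str u) (str u')) ↔ Emb u u' := by
  refine ⟨fun ⟨f⟩ => ?_, fun ⟨e, a, b⟩ => ⟨@ElementaryEmbedding.mk LL ℕ ℕ (str u) (str u') e
    fun n φ x => (qe φ).elim fun m hm => hm _ _ _ _ _ _ h' h ?_⟩⟩
  · refine ⟨_, @ElementaryEmbedding.injective LL ℕ ℕ (str u) (str u') f, fun j a b => ?_⟩
    have := @ElementaryEmbedding.map_rel LL ℕ ℕ (str u) (str u') f 2 ⟨j, rfl⟩ ![a, b]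
    refine Bool.eq_iff_iff.2 (Iff.trans (Eq.congr (congrArg _ (funext ?_)) rfl) this)
    simp
  · rintro (s | s) (t | t)
    exacts [⟨a.eq_iff, fun j _ => b j _ _⟩, t.elim0, s.elim0, s.elim0]

abbrev P : Type := Node × I × ℕ

inductive U
  | base (p : P)
  | nil (d : List Bool)
  | cons (h : U) (e : List Bool × List Bool) (t : U)

deriving instance Countable for U

instance : Infinite U := .of_injective .base fun _ _ => U.base.inj

open U

open Classical in
noncomputable def dem : U → U → Option (List Bool × List Bool)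
  | cons h e t, a => if a = h then some e else dem t a
  | _, _ => none

def dg : U → List Bool
  | base _ => []
  | .nil d => d
  | cons _ _ t => dg t

open Classical in
noncomputable def noise (c a : U) : List Bool :=
  (dem c a).elim ((dem a c).elim (if c = a then dg c else []) Prod.snd) Prod.fst

abbrev K : Type := (ℕ × I × ℕ) × Prop × Prop ⊕ List Bool ⊕ (List Bool × List Bool) × Prop × Prop

noncomputable def cd : K → ℕ := (exists_injective_nat K).choose

variable {X : Type} [MeasurableSpace X] {R : X → X → Prop} (S : Sys X R)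

open Classical in
noncomputable def info (x : X) : U → U → K
  | base p, a => inl ((p.1.1, p.2.1, if S.b x p.1 p.2.1 then p.2.2 else p.2.2 + 1),
      (∃ q, a = base q ∧ q.1 = p.1), ∃ q, a = base q ∧ Cd p.1 q.1)
  | .nil d, _ => inr (inl d)
  | cons h e t, a => inr (inr (e, a = h, a = t))

noncomputable def lab (x : X) (j : ℕ) (c a : U) : Bool :=
  (noise c a)[j]?.getD (decide (j.unpair.1 = cd (info S x c a)))

variable {S} {x y : X}

lemma lab_info {c a c' a'} (h : ∀ j, lab S y j c' a' = lab S x j c a) :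
    info S y c' a' = info S x c a := by
  have := h ((cd (info S x c a)).pair ((noise c a).length + (noise c' a').length))
  have k := Nat.right_le_pair (cd (info S x c a)) ((noise c a).length + (noise c' a').length)
  simp only [lab] at this
  rw [List.getElem?_eq_none (by omega), List.getElem?_eq_none (by omega)] at this
  exact ((exists_injective_nat K).choose_spec (show cd _ = cd _ by simpa using this)).symm

def sz : U → ℕ
  | cons h _ t => sz h + sz t + 1
  | _ => 0

lemma dem_sz (c a : U) (h : sz c ≤ sz a) : dem c a = none := by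
  induction c with
  | cons b e t _ ih =>
    simp only [sz] at h
    rw [dem, if_neg (by rintro rfl; omega), ih (by omega)]
  | _ => rfl

lemma lab_ext (x : X) (n : ℕ) (A : Finset U) (o i : U → ℕ → Bool) (d : ℕ → Bool) : ∃ c ∉ A,
    ∀ j < n, lab S x j c c = d j ∧ ∀ a ∈ A, lab S x j c a = o a j ∧ lab S x j a c = i a j := by
  classical
  obtain ⟨c, c1, c2⟩ : ∃ c, dg c = (List.range n).map d ∧ ∀ a ∈ A, sz a < sz c ∧
      dem c a = some ((List.range n).map (o a), (List.range n).map (i a)) := by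
    induction A using Finset.induction_on with
    | empty => exact ⟨.nil _, rfl, by simp⟩
    | insert b A _ ih =>
      obtain ⟨c, c1, c2⟩ := ih
      refine ⟨cons b ((List.range n).map (o b), (List.range n).map (i b)) c, c1, fun a ha => ?_⟩
      by_cases e : a = b
      · exact ⟨by simp only [sz, e]; omega, by simp [dem, e]⟩
      · have := c2 a ((Finset.mem_insert.1 ha).resolve_left e)
        exact ⟨by simp only [sz]; omega, by simp [dem, e, this]⟩
  refine ⟨c, fun h => (c2 c h).1.false, fun j hj => ⟨?_, fun a ha => ?_⟩⟩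
  · simp [lab, noise, dem_sz c c le_rfl, c1, hj]
  · simp [lab, noise, dem_sz a c (c2 a ha).1.le, c2 a ha, hj]

def mp (θ : P → P) : U → U
  | base p => base (θ p)
  | .nil d => .nil d
  | cons h e t => cons (mp θ h) e (mp θ t)

lemma mp_inj {θ : P → P} (hθ : Injective θ) : Injective (mp θ) := fun a => by
  induction a with
  | base p => rintro (_ | _ | _) h <;> simp_all [mp, hθ.eq_iff]
  | nil d => rintro (_ | _ | _) h <;> simp_all [mp]
  | cons b e t i1 i2 =>
    rintro (_ | _ | _) h <;> simp only [mp, reduceCtorEq, cons.injEq] at h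
    rw [i1 h.1, h.2.1, i2 h.2.2]

lemma mp_noise {θ : P → P} (hθ : Injective θ) (c a : U) : noise (mp θ c) (mp θ a) = noise c a := by
  classical
  have d : ∀ c a, dem (mp θ c) (mp θ a) = dem c a := fun c a => by
    induction c with
    | cons b e t _ i => simp only [mp, dem, i]; exact if_congr (mp_inj hθ).eq_iff rfl rfl
    | _ => rfl
  have g : dg (mp θ c) = dg c := by induction c <;> simp_all [mp, dg]
  simp only [noise, d, g]
  rw [if_congr (mp_inj hθ).eq_iff rfl rfl]

lemma up (r : R x y) : ∃ e : U → U, Injective e ∧ ∀ j c a, lab S y j (e c) (e a) = lab S x j c a := by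
  classical
  obtain ⟨ψ, h1, h2, h3⟩ := S.up x y r
  let θ : P → P := fun p => (ψ p.1, p.2.1,
    if S.b y (ψ p.1) p.2.1 ∧ ¬ S.b x p.1 p.2.1 then p.2.2 + 1 else p.2.2)
  have hθ : Injective θ := fun ⟨p, i, k⟩ ⟨q, j, l⟩ h => by
    simp only [θ, Prod.mk.injEq, ψ.injective.eq_iff] at h ⊢
    obtain ⟨rfl, rfl, h⟩ := h
    grind
  refine ⟨mp θ, mp_inj hθ, fun j c a => ?_⟩
  have : info S y (mp θ c) (mp θ a) = info S x c a := by
    cases c with
    | base p =>
      have := h3 p.1 p.2.1
      cases a <;> simp [mp, info, θ, h1, h2] <;> grind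
    | nil d => rfl
    | cons b e t => simp [mp, info, (mp_inj hθ).eq_iff]
  simp only [lab, mp_noise hθ, this]

lemma down {e : U → U} (h : ∀ j c a, lab S y j (e c) (e a) = lab S x j c a) :
    ∃ θ : P → P, ∃ ψ : Node → Node, (e = mp θ ∧ Injective ψ) ∧ (∀ p, (ψ p).1 = p.1) ∧
      (∀ p q, Cd p q → Cd (ψ p) (ψ q)) ∧ ∀ p, (θ p).1 = ψ p.1 ∧ (θ p).2.1 = p.2.1 ∧
        (S.b x p.1 p.2.1 → p.2.2 = 0 → S.b y (ψ p.1) p.2.1) ∧
        ((S.b x p.1 p.2.1 ↔ S.b y (ψ p.1) p.2.1) → (θ p).2.2 = p.2.2) ∧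
        (¬ S.b x p.1 p.2.1 → (θ p).2.2 = 0 → ¬ S.b y (ψ p.1) p.2.1) := by
  have k := fun c a => lab_info fun j => h j c a
  choose θ hθ using fun p : P => show ∃ q, e (base p) = base q by
    have := k (base p) (base p)
    cases z : e (base p) <;> simp_all [info]
  have k' := fun p q => k (base p) (base q)
  simp only [hθ, info, inl.injEq, Prod.mk.injEq, base.injEq, exists_eq_left', eq_iff_iff] at k'
  have s : ∀ p : P, (θ p).1 = (θ (p.1, inl 0, 0)).1 := fun p => (k' _ _).2.1.2 rfl
  refine ⟨θ, fun p => (θ (p, inl 0, 0)).1, ⟨funext fun c => ?_,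
    fun p q => (k' (q, inl 0, 0) (p, inl 0, 0)).2.1.1⟩, fun p => (k' _ (p, inl 0, 0)).1.1,
    fun p q => (k' (p, inl 0, 0) (q, inl 0, 0)).2.2.2, fun p => ⟨s p, (k' p p).1.2.1, ?_⟩⟩
  · induction c with
    | base p => exact hθ p
    | nil d =>
      have := k (.nil d) (.nil d)
      cases z : e (.nil d) <;> simp_all [info, mp]
    | cons b d t i1 i2 =>
      have a1 := k (cons b d t) b
      have a2 := k (cons b d t) t
      cases z : e (cons b d t) <;> simp_all [info, mp]
  · have := (k' p p).1.2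
    simp only [← s p]
    obtain ⟨a, b⟩ := this
    rw [a] at b
    split_ifs at b with c d d <;> simp [c, d] <;> omega

noncomputable def eU : ℕ ≃ U := Classical.choice nonempty_equiv_of_countable

noncomputable def st (S : Sys X R) (x : X) (c : ℕ → ℕ) : M :=
  fun j v => lab S x j (eU (c (v 0))) (eU (c (v 1)))

lemma st_xt {c : ℕ → ℕ} (hc : Bijective c) : Xt (st S x c) := fun n A o i d => by
  classical
  let e := (Equiv.ofBijective c hc).trans eU
  obtain ⟨z, z1, z2⟩ := lab_ext (S := S) x n (A.image e) (o ∘ e.symm) (i ∘ e.symm) d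
  obtain ⟨z, rfl⟩ := e.surjective z
  exact ⟨z, fun h => z1 (Finset.mem_image_of_mem _ h), fun j hj => ⟨(z2 j hj).1, fun a ha => by
    have := (z2 j hj).2 _ (Finset.mem_image_of_mem _ ha)
    simp only [comp_apply, e.symm_apply_apply] at this
    exact this⟩⟩

lemma st_emb {c d : ℕ → ℕ} (hc : Bijective c) (hd : Bijective d) :
    Emb (st S x c) (st S y d) ↔ R x y := by
  let e := (Equiv.ofBijective c hc).trans eU
  let e' := (Equiv.ofBijective d hd).trans eU
  refine ⟨fun ⟨f, _, h⟩ => ?_, fun r => ?_⟩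
  · obtain ⟨θ, ψ, -, h1, h2, h3⟩ := down (S := S) (x := x) (y := y) (e := e' ∘ f ∘ e.symm)
      fun j a b => (h j _ _).trans (congr (congrArg _ (e.apply_symm_apply a)) (e.apply_symm_apply b))
    exact S.down x y ψ h1 h2 fun p i b => (h3 (p, i, 0)).2.2.1 b rfl
  · obtain ⟨f, f1, f2⟩ := up (S := S) r
    exact ⟨e'.symm ∘ f ∘ e, e'.symm.injective.comp (f1.comp e.injective), fun j a b =>
      (congr (congrArg _ (e'.apply_symm_apply _)) (e'.apply_symm_apply _)).trans (f2 j _ _)⟩

lemma st_inj {c d : ℕ → ℕ} (hc : Bijective c) (hd : Bijective d) (h : st S x c = st S y d) :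
    x = y ∧ c = d := by
  let e := (Equiv.ofBijective c hc).trans eU
  let e' := (Equiv.ofBijective d hd).trans eU
  obtain ⟨θ, ψ, ⟨h0, hi⟩, h1, -, h3⟩ := down (S := S) (x := x) (y := y) (e := e' ∘ e.symm) fun j a b =>
    (congrFun₂ h j ![e.symm a, e.symm b]).symm.trans
      (congr (congrArg _ (e.apply_symm_apply a)) (e.apply_symm_apply b))
  have su : ∀ q, ∃ p, θ p = q := fun q => by
    obtain ⟨u, hu⟩ := (e'.surjective.comp e.symm.surjective) (base q)
    rw [h0] at hu
    cases u with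
    | base p => exact ⟨p, base.inj hu⟩
    | _ => cases hu
  have b : ∀ p i, S.b x p i ↔ S.b y (ψ p) i := fun p i => ⟨fun b => (h3 (p, i, 0)).2.2.1 b rfl,
    fun b => by
      obtain ⟨⟨q, j, k⟩, hq⟩ := su (ψ p, i, 0)
      have := h3 (q, j, k)
      rw [hq] at this
      obtain rfl : p = q := hi this.1
      obtain rfl : i = j := this.2.1
      by_contra z
      exact this.2.2.2.2 z rfl b⟩
  obtain rfl : id = ψ := funext fun p => S.rig x y _ _ (h1 p).symm (b p)
  obtain rfl : id = θ := funext fun p =>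
    (Prod.ext (h3 p).1 (Prod.ext (h3 p).2.1 ((h3 p).2.2.2.1 (b _ _)))).symm
  have m : ∀ u, mp id u = u := fun u => by induction u <;> simp_all [mp]
  refine ⟨S.inj x y b, funext fun a => eU.injective ?_⟩
  exact (m _).symm.trans ((congrFun h0 (e a)).symm.trans (congrArg e' (e.symm_apply_apply a)))

lemma st_meas : Measurable fun p : X × (ℕ → ℕ) => st S p.1 p.2 := by
  refine measurable_pi_lambda _ fun j => measurable_pi_lambda _ fun v => measurable_to_bool
    (measurableSet_setOf.2 (mev (b := fun p a => lab S p.1 j (eU a) (eU (p.2 (v 1))) = true)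
      (fun a => mev (b := fun p b => lab S p.1 j (eU a) (eU b) = true) (fun b => ?_) fun w =>
        (MP_44948e_lc.mc _ w).comp measurable_snd) fun w =>
          (MP_44948e_lc.mc _ w).comp measurable_snd))
  refine mev (b := fun _ k => (noise (eU a) (eU b))[j]?.getD (decide (j.unpair.1 = cd k)) = true)
    (c := fun p : X × (ℕ → ℕ) => info S p.1 (eU a) (eU b)) (fun _ => measurable_const) fun w => ?_
  cases eU a with
  | base q =>
    classical
    exact mev (b := fun _ (t : Prop) => (inl ((q.1.1, q.2.1, if t then q.2.2 else q.2.2 + 1),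
      (∃ r, eU b = base r ∧ r.1 = q.1), ∃ r, eU b = base r ∧ Cd q.1 r.1) : K) = w)
      (fun _ => measurable_const) fun t => by
        simp only [eq_iff_iff]
        exact ((S.meas _ _).comp measurable_fst).iff measurable_const
  | _ => simp only [info]; exact measurable_const

lemma bij_meas : MeasurableSet {p : X × (ℕ → ℕ) | Bijective p.2} :=
  measurable_snd (t := {c : ℕ → ℕ | (∀ a b, c a = c b → a = b) ∧ ∀ b, ∃ a, c a = b})
    (measurableSet_setOf.2 ((Measurable.forall fun _ => .forall fun _ =>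
    (measurableSet_setOf.1 (measurableSet_eq_fun (by fun_prop) (by fun_prop))).imp
      measurable_const).and (.forall fun _ => .exists fun _ => MP_44948e_lc.mc _ _)))

end Pool.Agent.H.MP_094aee_lc
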